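import Pool.Agent.Helper70.LA.Base
import Pool.Agent.Helper56.LA.Grid

/-!
Module LA-SIG of MP_c61924_co: the signal of one shape.
-/

set_option autoImplicit false

namespace Pool.Agent.Helper70.LA

open Finset

section sig

variable {ι : Type} [Fintype ι] [DecidableEq ι] {L : ℕ}

private theorem sig_lt (n : ℕ) (hn : n < L) (r : ι → ℕ) (hr : r ∈ shapes ι n) (i : ι) :
    r i < L := by
  unfold shapes at hr
  rw [mem_filter, Fintype.mem_piFinset] at hr
  have := mem_range.1 (hr.1 i)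
  omega

private theorem sig_sum (n : ℕ) (r : ι → ℕ) (hr : r ∈ shapes ι n) : ∑ i, r i = n := by
  unfold shapes at hr
  rw [mem_filter] at hr
  exact hr.2

private theorem sig_prod_two (n : ℕ) (r : ι → ℕ) (hr : r ∈ shapes ι n) (c : ℝ) :
    ∏ i : ι, (c / 2 ^ r i) = c ^ Fintype.card ι / 2 ^ n := by
  rw [prod_div_distrib, prod_const, prod_pow_eq_pow_sum, sig_sum n r hr, card_univ]

private theorem sig_ind (r : ι → ℕ) (hr : ∀ i, r i < L)
    (g : (ι × Fin L → Bool) → ℝ) (hginv : ∀ i x y, g (mix (low i (r i)) x y) = g x)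
    (T : Finset ι) :
    (av fun x => g x * ∏ i ∈ T, (sg i (r i) x * wt i (r i) x))
      = av g * ∏ i ∈ T, (1 / 4 / 2 ^ r i : ℝ) := by
  induction T using Finset.induction_on with
  | empty => simp
  | insert i T hi ih =>
    have h1 : (fun x => g x * ∏ j ∈ insert i T, (sg j (r j) x * wt j (r j) x)) =
        fun x => (g x * ∏ j ∈ T, (sg j (r j) x * wt j (r j) x)) *
          (sg i (r i) x * wt i (r i) x) := by
      funext x
      rw [prod_insert hi]
      ring
    rw [h1, av_mul_inv (U := low i (r i))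
      (h := fun x => g x * ∏ j ∈ T, (sg j (r j) x * wt j (r j) x))]
    · have h2 : (fun x => (g x * ∏ j ∈ T, (sg j (r j) x * wt j (r j) x)) *
          EU (low i (r i)) (fun x => sg i (r i) x * wt i (r i) x) x) =
          fun x => (g x * ∏ j ∈ T, (sg j (r j) x * wt j (r j) x)) * (1 / 4 / 2 ^ r i) := by
        funext x
        rw [EU_sg_mul_wt i (r i) (hr i) x]
      rw [h2, av_mul_right, ih, prod_insert hi]
      ring
    · intro x y
      show g _ * _ = g _ * _
      rw [hginv i x y]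
      congr 1
      apply prod_congr rfl
      intro j hj
      have hij : i ≠ j := fun h => hi (h ▸ hj)
      rw [sg_mix (i := j) (j := i) (r j) (r i) (Or.inl hij) x y, wt_mix (r j) (r i) hij x y]

theorem av_g_prod (n : ℕ) (hn : n < L) (r : ι → ℕ) (hr : r ∈ shapes ι n)
    (g : (ι × Fin L → Bool) → ℝ) (hginv : ∀ i x y, g (mix (low i (r i)) x y) = g x) :
    (av fun x => g x * ∏ i, (sg i (r i) x * wt i (r i) x))
      = av g * (1 / 4 ^ Fintype.card ι / 2 ^ n) := by
  rw [sig_ind r (sig_lt n hn r hr) g hginv univ, sig_prod_two n r hr]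
  congr 2
  rw [div_pow, one_pow]

private theorem sig_wt_le (n : ℕ) (r : ι → ℕ) (hr : r ∈ shapes ι n) (x : ι × Fin L → Bool) :
    |∏ i, wt i (r i) x| ≤ 1 / 2 ^ Fintype.card ι / 2 ^ n := by
  rw [abs_prod]
  calc ∏ i, |wt i (r i) x| ≤ ∏ i : ι, (1 / 2 / 2 ^ r i : ℝ) :=
        prod_le_prod (fun i _ => abs_nonneg _) (fun i _ => abs_wt_le i (r i) x)
    _ = 1 / 2 ^ Fintype.card ι / 2 ^ n := by
        rw [sig_prod_two n r hr, div_pow, one_pow]

private theorem sig_prod_sg (r : ι → ℕ) (T : Finset ι) (x : ι × Fin L → Bool) :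
    |∏ i ∈ T, sg i (r i) x| = 1 := by
  rw [abs_prod]
  exact prod_eq_one fun i _ => abs_sg i (r i) x

theorem signal_shape (n : ℕ) (hn : n < L) (r : ι → ℕ) (hr : r ∈ shapes ι n)
    (g : (ι × Fin L → Bool) → ℝ) (hg : ∀ x, g x = 0 ∨ g x = 1)
    (hginv : ∀ i x y, g (mix (low i (r i)) x y) = g x) (hgav : 3 / 4 ≤ av g)
    (X0 : Set (ι × Fin L → Bool)) (v : Finset ι → (ι → ℕ) → (ι × Fin L → Bool) → ℝ)
    (h0 : v ∅ r = ind X0) :
    (3 / 4 * (1 / 4 ^ Fintype.card ι) - (1 / 2 ^ Fintype.card ι) * av (ind X0ᶜ)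
      - (1 / 2 ^ Fintype.card ι) * ∑ I ∈ univ.erase (∅ : Finset ι), av fun x => |v I r x|) / 2 ^ n
      ≤ av fun x => phi g v r x * ∏ i, wt i (r i) x := by
  set c : ℝ := 1 / 2 ^ Fintype.card ι / 2 ^ n with hc
  have hc0 : 0 ≤ c := by positivity
  -- pointwise bound
  have hpt : ∀ x, (g x * ∏ i, (sg i (r i) x * wt i (r i) x)) - c * ind X0ᶜ x
      - c * ∑ I ∈ univ.erase (∅ : Finset ι), |v I r x| ≤ phi g v r x * ∏ i, wt i (r i) x := by
    intro x
    have hw := sig_wt_le n r hr x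
    rw [← hc] at hw
    have hg0 : 0 ≤ g x := by rcases hg x with h | h <;> rw [h] <;> norm_num
    have hg1 : g x ≤ 1 := by rcases hg x with h | h <;> rw [h] <;> norm_num
    have hterm : ∀ I : Finset ι, ∀ u : ℝ,
        |g x * ((∏ i ∈ Iᶜ, sg i (r i) x) * u) * ∏ i, wt i (r i) x| ≤ c * |u| := by
      intro I u
      rw [abs_mul, abs_mul, abs_mul, sig_prod_sg, one_mul, abs_of_nonneg hg0]
      calc g x * |u| * |∏ i, wt i (r i) x| ≤ 1 * |u| * c := by
            gcongr
        _ = c * |u| := by ring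
    have hsplit : phi g v r x * ∏ i, wt i (r i) x =
        g x * ((∏ i ∈ (∅ : Finset ι)ᶜ, sg i (r i) x) * v ∅ r x) * (∏ i, wt i (r i) x)
        + ∑ I ∈ univ.erase (∅ : Finset ι),
          g x * ((∏ i ∈ Iᶜ, sg i (r i) x) * v I r x) * ∏ i, wt i (r i) x := by
      unfold phi
      rw [← Finset.add_sum_erase univ _ (mem_univ (∅ : Finset ι)), mul_add, add_mul, mul_sum,
        sum_mul]
    have hmain : (g x * ∏ i, (sg i (r i) x * wt i (r i) x)) - c * ind X0ᶜ x ≤
        g x * ((∏ i ∈ (∅ : Finset ι)ᶜ, sg i (r i) x) * v ∅ r x) * (∏ i, wt i (r i) x) := by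
      have e1 : g x * ((∏ i ∈ (∅ : Finset ι)ᶜ, sg i (r i) x) * v ∅ r x) * (∏ i, wt i (r i) x) =
          (g x * ∏ i, (sg i (r i) x * wt i (r i) x))
          - g x * ((∏ i ∈ (∅ : Finset ι)ᶜ, sg i (r i) x) * ind X0ᶜ x) * (∏ i, wt i (r i) x) := by
        rw [h0, ind_compl, compl_empty, prod_mul_distrib]
        ring
      rw [e1]
      have h2 := (abs_le.1 (hterm ∅ (ind X0ᶜ x))).2
      rw [abs_of_nonneg (ind_nonneg X0ᶜ x)] at h2
      linarith
    have hrest : - (c * ∑ I ∈ univ.erase (∅ : Finset ι), |v I r x|) ≤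
        ∑ I ∈ univ.erase (∅ : Finset ι),
          g x * ((∏ i ∈ Iᶜ, sg i (r i) x) * v I r x) * ∏ i, wt i (r i) x := by
      rw [mul_sum, ← sum_neg_distrib]
      apply sum_le_sum
      intro I _
      have := (abs_le.1 (hterm I (v I r x))).1
      linarith
    rw [hsplit]
    linarith
  have hav := av_mono hpt
  have hL : (av fun x => (g x * ∏ i, (sg i (r i) x * wt i (r i) x)) - c * ind X0ᶜ x
      - c * ∑ I ∈ univ.erase (∅ : Finset ι), |v I r x|) =
      av g * (1 / 4 ^ Fintype.card ι / 2 ^ n) - c * av (ind X0ᶜ)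
      - c * ∑ I ∈ univ.erase (∅ : Finset ι), av fun x => |v I r x| := by
    rw [av_sub (fun x => (g x * ∏ i, (sg i (r i) x * wt i (r i) x)) - c * ind X0ᶜ x)
      (fun x => c * ∑ I ∈ univ.erase (∅ : Finset ι), |v I r x|),
      av_sub (fun x => g x * ∏ i, (sg i (r i) x * wt i (r i) x)) (fun x => c * ind X0ᶜ x),
      av_mul_left, av_mul_left, av_g_prod n hn r hr g hginv,
      av_sum (univ.erase (∅ : Finset ι)) (fun I x => |v I r x|)]
  rw [hL] at hav
  refine le_trans ?_ hav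
  have h3 : 3 / 4 * (1 / 4 ^ Fintype.card ι / 2 ^ n) ≤ av g * (1 / 4 ^ Fintype.card ι / 2 ^ n) :=
    mul_le_mul_of_nonneg_right hgav (by positivity)
  have h4 : (3 / 4 * (1 / 4 ^ Fintype.card ι) - (1 / 2 ^ Fintype.card ι) * av (ind X0ᶜ)
      - (1 / 2 ^ Fintype.card ι) * ∑ I ∈ univ.erase (∅ : Finset ι), av fun x => |v I r x|) / 2 ^ n
      = 3 / 4 * (1 / 4 ^ Fintype.card ι / 2 ^ n) - c * av (ind X0ᶜ)
        - c * ∑ I ∈ univ.erase (∅ : Finset ι), av fun x => |v I r x| := by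
    rw [hc]
    ring
  rw [h4]
  linarith

end sig

end Pool.Agent.Helper70.LA
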